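import Pool.Agent.helper55.NM.Spec3

/-! Row nm:ASZ of project NM (helper55), step 2: the assembly of the parts. -/

set_option autoImplicit false

namespace Pool.Agent.helper21.NM

open Pool.Agent.NM Pool.Agent.helper72.UP Finset Nat

open Classical in
theorem ASZ (hPA : PA_stmt) (hPC : PC_stmt) (hBZ : BZ_stmt) (hBZP : BZP_stmt) (hTR3 : TR3_stmt)
    (hSYM : SYM_stmt) : ASZ_stmt := by
  intro ε0 hε0
  obtain ⟨ε, hε, hε1, hεε⟩ : ∃ ε : ℝ, 0 < ε ∧ ε ≤ 1 / 100 ∧ ε ≤ ε0 :=
    ⟨min ε0 (1 / 100), lt_min hε0 (by norm_num), min_le_right _ _, min_le_left _ _⟩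
  have hε12 : ε ≤ 1 / 12 := by linarith
  obtain ⟨p0, n1, h1⟩ := hPA ε hε
  obtain ⟨n2, h2⟩ := hPC ε hε
  obtain ⟨n3, h3⟩ := hBZ ε 3 hε le_rfl
  have hB : ∀ p : ℕ, ∃ N : ℕ, 4 ≤ p → ∀ (n k : ℕ) (x : Fin n → ℝ), N ≤ n →
      (n : ℝ) / 3 ≤ k → (k : ℝ) ≤ (1 / 2 - ε) * n → (∀ i, x i ≠ 0) →
      (univ.filter (fun i => 0 < x i)).card = p → zer x k ≤ 2 * (n - 2).choose (k - 1) := by
    intro p
    by_cases hp : 4 ≤ p
    · obtain ⟨N, hN⟩ := hBZP ε p hε hε12 hp
      exact ⟨N, fun _ => hN⟩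
    · exact ⟨0, fun h => absurd h hp⟩
  choose N hN using hB
  refine ⟨max n1 (max n2 (max n3 ((range p0).sup N))), ?_⟩
  intro n k x hn hk1 hk2' hx
  have hn1 : n1 ≤ n := le_trans (le_max_left _ _) hn
  have hn2 : n2 ≤ n := le_trans (le_trans (le_max_left _ _) (le_max_right _ _)) hn
  have hn3 : n3 ≤ n :=
    le_trans (le_trans (le_trans (le_max_left _ _) (le_max_right _ _)) (le_max_right _ _)) hn
  have hn4 : (range p0).sup N ≤ n :=
    le_trans (le_trans (le_trans (le_max_right _ _) (le_max_right _ _)) (le_max_right _ _)) hn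
  have hnn : (0 : ℝ) ≤ n := Nat.cast_nonneg n
  have hk1R : (n : ℝ) + 1 ≤ 3 * k := by exact_mod_cast hk1
  have hk3 : (n : ℝ) / 3 ≤ k := by linarith
  have hk4 : (1 / 3 : ℝ) * n ≤ k := by linarith
  have hk2 : (k : ℝ) ≤ (1 / 2 - ε) * n := by
    have : ε * n ≤ ε0 * n := mul_le_mul_of_nonneg_right hεε hnn
    linarith
  have key : ∀ y : Fin n → ℝ, (∀ i, y i ≠ 0) → (univ.filter (fun i => 0 < y i)).card < p0 →
      zer y k ≤ 2 * (n - 2).choose (k - 1) := by
    intro y hy hlt
    by_cases h4 : 4 ≤ (univ.filter (fun i => 0 < y i)).card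
    · refine hN _ h4 n k y ?_ hk3 hk2 hy rfl
      exact le_trans (Finset.le_sup (f := N) (mem_range.mpr hlt)) hn4
    · by_cases h5 : (univ.filter (fun i => 0 < y i)).card = 3
      · by_cases h6 : 100 * k ≤ 37 * n
        · exact hTR3 n k y hk1 h6 hy h5
        · push Not at h6
          have h6R : (37 : ℝ) * n < 100 * k := by exact_mod_cast h6
          refine h3 n k y hn3 ?_ hk2 hy h5
          have : ε * n ≤ 1 / 100 * n := mul_le_mul_of_nonneg_right hε1 hnn
          linarith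
      · exact h2 n k y hn2 hk3 hk2 hy (by omega)
  by_cases ha : (univ.filter (fun i => 0 < x i)).card < p0
  · exact key x hx ha
  · by_cases hb : (univ.filter (fun i => x i < 0)).card < p0
    · rw [← hSYM n k x]
      refine key (fun i => - x i) (fun i => neg_ne_zero.mpr (hx i)) ?_
      have he : (univ.filter (fun i => 0 < - x i)) = univ.filter (fun i => x i < 0) := by
        ext i
        simp only [mem_filter, mem_univ, true_and, Left.neg_pos_iff]
      have he2 : (univ.filter (fun i => 0 < (fun i => - x i) i)).card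
          = (univ.filter (fun i => x i < 0)).card := by
        rw [← he]
      rw [he2]
      exact hb
    · exact h1 n k x hn1 hk4 hk2 hx (by omega) (by omega)

end Pool.Agent.helper21.NM
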