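import Pool.Agent.helper55.NM.Spec3
import Pool.Agent.helper55.NK.Base

/-! Row `nm:FPZ` (MP_7e34bc_co), second prover. -/

set_option autoImplicit false

namespace Pool.Agent.helper21.NM

open Pool.Agent.NM Pool.Agent.helper72.UP Finset Nat

/-- the value of `M(n,k)` for `n + 1 ≤ 3k`, `2k ≤ n` -/
theorem FPZ_val (n k : ℕ) (h1 : n + 1 ≤ 3 * k) (h2 : 2 * k ≤ n) (hn : 3 ≤ n) :
    ((n + 1) / k) * (n - (n + 1) / k).choose (k - 1) = 2 * (n - 2).choose (k - 1) := by
  have hk : 0 < k := by omega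
  rcases Nat.lt_or_ge (n + 1) (3 * k) with h | h
  · have hq : (n + 1) / k = 2 := by
      rw [Nat.div_eq_iff hk]
      constructor <;> omega
    rw [hq]
  · have h3 : n + 1 = 3 * k := le_antisymm h1 h
    have hq : (n + 1) / k = 3 := by
      rw [h3]
      exact Nat.mul_div_cancel _ hk
    rw [hq]
    obtain ⟨j, rfl⟩ : ∃ j, k = j + 2 := ⟨k - 2, by omega⟩
    obtain rfl : n = 3 * j + 5 := by omega
    have e1 : 3 * j + 5 - 3 = 3 * j + 2 := by omega
    have e2 : 3 * j + 5 - 2 = 3 * j + 2 + 1 := by omega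
    have e3 : j + 2 - 1 = j + 1 := by omega
    rw [e1, e2, e3]
    -- C(3j+2, j+1) (3j+3) = C(3j+3, j+1) (3j+3 - (j+1))
    have h5 := Nat.choose_mul_succ_eq (3 * j + 2) (j + 1)
    have e4 : 3 * j + 2 + 1 - (j + 1) = 2 * j + 2 := by omega
    rw [e4] at h5
    have h6 : (j + 1) * (3 * (3 * j + 2).choose (j + 1)) =
        (j + 1) * (2 * (3 * j + 2 + 1).choose (j + 1)) := by
      linarith
    exact Nat.eq_of_mul_eq_mul_left (by omega) h6

theorem FPZ (hUPC : Pool.Agent.helper72.UP.UPC_stmt) (hASZ : ASZ_stmt) : FPZ_stmt := by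
  intro ε hε
  obtain ⟨n1, h1⟩ := hASZ ε hε
  refine ⟨max n1 3, fun n k hn hk1 hk2 => ?_⟩
  have hn3 : 3 ≤ n := le_trans (le_max_right _ _) hn
  have h2k : 2 * k ≤ n := by
    have hnn : (0 : ℝ) ≤ n := Nat.cast_nonneg n
    have : 0 ≤ ε * n := mul_nonneg hε.le hnn
    have h3 : (2 : ℝ) * k ≤ n := by linarith
    exact_mod_cast h3
  have hU := Pool.Agent.NK.Base.uniform_result n k (by omega) (by omega)
  rw [if_neg (by omega)] at hU
  constructor
  · obtain ⟨S, hS1, hS2, hS3⟩ := hU.1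
    refine ⟨S, fun v hv => ⟨(hS1 v hv).1, ?_, (hS1 v hv).2.le⟩, hS2, hS3⟩
    rintro rfl
    have h3 := (hS1 0 hv).2
    have h4 : univ.filter (fun i : Fin n => (0 : Fin n → ℝ) i = 1) = ∅ := by
      rw [filter_eq_empty_iff]
      intro i _ h
      simp at h
    rw [h4, card_empty] at h3
    omega
  · intro m hm
    obtain ⟨x, hx, hmx⟩ := hUPC n k m hm
    have h3 := h1 n k x (le_trans (le_max_left _ _) hn) hk1 hk2 hx
    rw [FPZ_val n k hk1 h2k hn3]
    exact hmx.trans h3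

end Pool.Agent.helper21.NM
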